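import Pool.Agent.H5.TT.Stm

/-! Part COU: positivity of the Coulomb energy. -/

set_option autoImplicit false
open MeasureTheory Set

namespace H43.TT
open H5.TT

/-- abstract positivity -/
theorem pos_abs {X H : Type*} [MeasurableSpace X] [MeasurableSpace H] (μ : Measure X)
    (ν : Measure H) [SigmaFinite μ] [SigmaFinite ν]
    (k : X → H → ℝ) (hk : Measurable (Function.uncurry k)) (hk0 : ∀ x h, 0 ≤ k x h)
    (K : X × X → ℝ) (hK : ∀ᵐ p ∂(μ.prod μ), Integrable (fun h => k p.1 h * k p.2 h) ν ∧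
      ∫ h, k p.1 h * k p.2 h ∂ν = K p)
    (f : X → ℝ) (hf : Measurable f)
    (hi : Integrable (fun p : X × X => f p.1 * f p.2 * K p) (μ.prod μ)) :
    0 ≤ ∫ p, f p.1 * f p.2 * K p ∂(μ.prod μ) := by
  have hm : Measurable (fun q : (X × X) × H =>
      f q.1.1 * f q.1.2 * (k q.1.1 q.2 * k q.1.2 q.2)) := by
    have h1 : Measurable (fun q : (X × X) × H => k q.1.1 q.2) :=
      hk.comp (g := Function.uncurry k) (f := fun q : (X × X) × H => (q.1.1, q.2)) (by fun_prop)
    have h2 : Measurable (fun q : (X × X) × H => k q.1.2 q.2) :=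
      hk.comp (g := Function.uncurry k) (f := fun q : (X × X) × H => (q.1.2, q.2)) (by fun_prop)
    exact ((hf.comp (f := fun q : (X × X) × H => q.1.1) (by fun_prop)).mul
      (hf.comp (f := fun q : (X × X) × H => q.1.2) (by fun_prop))).mul (h1.mul h2)
  have hF : Integrable (fun q : (X × X) × H =>
      f q.1.1 * f q.1.2 * (k q.1.1 q.2 * k q.1.2 q.2)) ((μ.prod μ).prod ν) := by
    rw [integrable_prod_iff hm.aestronglyMeasurable]
    constructor
    · filter_upwards [hK] with p hp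
      exact hp.1.const_mul _
    · refine hi.norm.congr ?_
      filter_upwards [hK] with p hp
      have h3 : ∀ h, ‖f p.1 * f p.2 * (k p.1 h * k p.2 h)‖ =
          ‖f p.1 * f p.2‖ * (k p.1 h * k p.2 h) := by
        intro h
        rw [norm_mul, Real.norm_of_nonneg (mul_nonneg (hk0 _ _) (hk0 _ _))]
      have h4 : 0 ≤ K p := by
        rw [← hp.2]
        exact integral_nonneg (fun h => mul_nonneg (hk0 _ _) (hk0 _ _))
      simp only [h3]
      rw [integral_const_mul, hp.2, norm_mul, Real.norm_of_nonneg h4]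
  have h1 : ∫ p, f p.1 * f p.2 * K p ∂(μ.prod μ) =
      ∫ p, ∫ h, f p.1 * f p.2 * (k p.1 h * k p.2 h) ∂ν ∂(μ.prod μ) := by
    refine integral_congr_ae ?_
    filter_upwards [hK] with p hp
    rw [integral_const_mul, hp.2]
  rw [h1, integral_integral_swap (f := fun (p : X × X) h =>
    f p.1 * f p.2 * (k p.1 h * k p.2 h)) hF]
  refine integral_nonneg (fun h => ?_)
  have h2 : ∫ p : X × X, f p.1 * f p.2 * (k p.1 h * k p.2 h) ∂(μ.prod μ) =
      (∫ x, f x * k x h ∂μ) * (∫ x, f x * k x h ∂μ) := by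
    rw [← integral_prod_mul]
    congr 1
    ext p
    ring
  show 0 ≤ ∫ p : X × X, f p.1 * f p.2 * (k p.1 h * k p.2 h) ∂(μ.prod μ)
  rw [h2]
  exact mul_self_nonneg _

theorem gw {b : ℝ} (hb : 0 < b) (m : R3) :
    ∫ w : R3, Real.exp (-b * ‖w - m‖ ^ 2) = (Real.pi / b) ^ (3 / 2 : ℝ) := by
  rw [integral_sub_right_eq_self (fun w : R3 => Real.exp (-b * ‖w‖ ^ 2)) m,
    GaussianFourier.integral_rexp_neg_mul_sq_norm hb]
  simp

/-- the constant -/
noncomputable def DD : ℝ := (Real.pi / 4) ^ (3 / 2 : ℝ) * Real.Gamma (1 / 2)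

theorem DD_pos : 0 < DD := by
  unfold DD
  have := Real.pi_pos
  have := Real.Gamma_pos_of_pos (show (0 : ℝ) < 1 / 2 by norm_num)
  positivity

/-- the kernel -/
noncomputable def kk (x : R3) (h : ℝ × R3) : ℝ :=
  Real.sqrt (h.1 / DD) * Real.exp (-(2 * h.1) * ‖x - h.2‖ ^ 2)

noncomputable def nu : Measure (ℝ × R3) := (volume.restrict (Ioi (0 : ℝ))).prod volume

instance : SigmaFinite nu := by
  unfold nu
  infer_instance

theorem kk_mul {x y : R3} {t : ℝ} (ht : 0 < t) (w : R3) :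
    kk x (t, w) * kk y (t, w) = (t / DD * Real.exp (-(‖x - y‖ ^ 2 * t))) *
      Real.exp (-(4 * t) * ‖w - (1 / 2 : ℝ) • (x + y)‖ ^ 2) := by
  have hD := DD_pos
  have h1 : ‖x - w‖ ^ 2 + ‖y - w‖ ^ 2 = 2 * ‖w - (1 / 2 : ℝ) • (x + y)‖ ^ 2 +
      ‖x - y‖ ^ 2 / 2 := by
    have h2 := parallelogram_law_with_norm ℝ (x - w) (y - w)
    have h3 : (x - w) + (y - w) = (-2 : ℝ) • (w - (1 / 2 : ℝ) • (x + y)) := by
      rw [smul_sub, smul_smul]
      norm_num
      rw [two_smul]
      abel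
    have h4 : (x - w) - (y - w) = x - y := by abel
    have h5 : ‖(-2 : ℝ)‖ = 2 := by norm_num
    rw [h3, h4, norm_smul, h5] at h2
    linear_combination (-(1 / 2 : ℝ)) * h2
  unfold kk
  simp only
  rw [mul_mul_mul_comm, Real.mul_self_sqrt (by positivity), ← Real.exp_add, mul_assoc,
    ← Real.exp_add]
  congr 2
  linear_combination (-(2 * t)) * h1

theorem inner_int {x y : R3} {t : ℝ} (ht : 0 < t) :
    ∫ w, kk x (t, w) * kk y (t, w) = (Real.Gamma (1 / 2))⁻¹ *
      (t ^ ((1 / 2 : ℝ) - 1) * Real.exp (-(‖x - y‖ ^ 2 * t))) := by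
  simp only [kk_mul ht]
  rw [integral_const_mul, gw (by positivity)]
  have h1 : (Real.pi / (4 * t)) ^ (3 / 2 : ℝ) =
      (Real.pi / 4) ^ (3 / 2 : ℝ) * t ^ (-(3 / 2) : ℝ) := by
    rw [Real.rpow_neg ht.le, ← div_eq_mul_inv, ← Real.div_rpow (by positivity) ht.le, div_div]
  have h2 : t * t ^ (-(3 / 2) : ℝ) = t ^ ((1 / 2 : ℝ) - 1) := by
    nth_rewrite 1 [← Real.rpow_one t]
    rw [← Real.rpow_add ht]
    norm_num
  rw [h1, ← h2]
  unfold DD
  have h3 : (Real.pi / 4) ^ (3 / 2 : ℝ) ≠ 0 := by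
    have := Real.pi_pos
    positivity
  have h4 : Real.Gamma (1 / 2) ≠ 0 :=
    (Real.Gamma_pos_of_pos (show (0 : ℝ) < 1 / 2 by norm_num)).ne'
  field_simp

theorem kk_int {x y : R3} (hxy : x ≠ y) :
    Integrable (fun h => kk x h * kk y h) nu ∧ ∫ h, kk x h * kk y h ∂nu = ‖x - y‖⁻¹ := by
  have ha : 0 < ‖x - y‖ := norm_pos_iff.2 (sub_ne_zero.2 hxy)
  have hG := Real.Gamma_pos_of_pos (show (0 : ℝ) < 1 / 2 by norm_num)
  have hm : Measurable (fun h => kk x h * kk y h) := by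
    unfold kk
    fun_prop
  have h0 : ∀ h, 0 ≤ kk x h * kk y h := by
    intro h
    unfold kk
    positivity
  have hval : ∫ t in Ioi (0 : ℝ), (Real.Gamma (1 / 2))⁻¹ *
      (t ^ ((1 / 2 : ℝ) - 1) * Real.exp (-(‖x - y‖ ^ 2 * t))) = ‖x - y‖⁻¹ := by
    rw [integral_const_mul, Real.integral_rpow_mul_exp_neg_mul_Ioi (by norm_num) (by positivity)]
    have : (1 / ‖x - y‖ ^ 2) ^ (1 / 2 : ℝ) = ‖x - y‖⁻¹ := by
      rw [← Real.sqrt_eq_rpow, Real.sqrt_div zero_le_one, Real.sqrt_one, Real.sqrt_sq ha.le,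
        one_div]
    rw [this]
    field_simp
  have hti : Integrable (fun t : ℝ => (Real.Gamma (1 / 2))⁻¹ *
      (t ^ ((1 / 2 : ℝ) - 1) * Real.exp (-(‖x - y‖ ^ 2 * t)))) (volume.restrict (Ioi (0 : ℝ))) := by
    apply Integrable.of_integral_ne_zero
    rw [hval]
    positivity
  have hint : Integrable (fun h => kk x h * kk y h) nu := by
    unfold nu
    rw [integrable_prod_iff hm.aestronglyMeasurable]
    constructor
    · filter_upwards [self_mem_ae_restrict measurableSet_Ioi] with t ht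
      apply Integrable.of_integral_ne_zero
      rw [inner_int ht]
      have : (0 : ℝ) < t := ht
      positivity
    · refine hti.congr ?_
      filter_upwards [self_mem_ae_restrict measurableSet_Ioi] with t ht
      rw [← inner_int ht]
      refine integral_congr_ae (Filter.Eventually.of_forall (fun w => ?_))
      exact (Real.norm_of_nonneg (h0 _)).symm
  refine ⟨hint, ?_⟩
  rw [← hval]
  unfold nu at hint ⊢
  rw [integral_prod _ hint]
  refine setIntegral_congr_fun measurableSet_Ioi (fun t ht => ?_)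
  exact inner_int ht

theorem ae_ne : ∀ᵐ p : R3 × R3, p.1 ≠ p.2 := by
  have hms : MeasurableSet {p : R3 × R3 | p.1 = p.2} :=
    measurableSet_eq_fun measurable_fst measurable_snd
  have h : (volume : Measure (R3 × R3)) {p : R3 × R3 | p.1 = p.2} = 0 := by
    rw [Measure.volume_eq_prod, Measure.measure_prod_null hms]
    refine Filter.Eventually.of_forall (fun x => ?_)
    have : Prod.mk x ⁻¹' {p : R3 × R3 | p.1 = p.2} = {x} := by
      ext y
      simp [eq_comm]
    simp [this]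
  rw [ae_iff]
  simpa using h

theorem t_COU (hDFI : S_DFI) : S_COU := by
  intro lam mu σ τ hσ hτ
  have i1 := hDFI lam lam σ σ hσ hσ
  have i2 := hDFI lam mu σ τ hσ hτ
  have i3 := hDFI mu lam τ σ hτ hσ
  have i4 := hDFI mu mu τ τ hτ hτ
  have hsym : dd τ σ = dd σ τ := by
    unfold dd
    rw [Measure.volume_eq_prod, ← integral_prod_swap]
    refine integral_congr_ae (Filter.Eventually.of_forall (fun p => ?_))
    simp only [Prod.fst_swap, Prod.snd_swap]
    rw [norm_sub_rev, mul_comm]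
  have hI : (fun p : R3 × R3 => (σ p.1 - τ p.1) * (σ p.2 - τ p.2) * ‖p.1 - p.2‖⁻¹) =
      fun p => (σ p.1 * σ p.2 / ‖p.1 - p.2‖ - σ p.1 * τ p.2 / ‖p.1 - p.2‖) -
        (τ p.1 * σ p.2 / ‖p.1 - p.2‖ - τ p.1 * τ p.2 / ‖p.1 - p.2‖) := by
    ext p
    ring
  have hint : Integrable (fun p : R3 × R3 =>
      (σ p.1 - τ p.1) * (σ p.2 - τ p.2) * ‖p.1 - p.2‖⁻¹) := by
    rw [hI]
    exact (i1.sub i2).sub (i3.sub i4)
  have hpos := pos_abs (volume : Measure R3) nu kk (by
      unfold kk Function.uncurry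
      fun_prop) (by
      intro x h
      unfold kk
      positivity) (fun p => ‖p.1 - p.2‖⁻¹) (by
      have := ae_ne
      rw [Measure.volume_eq_prod] at this
      filter_upwards [this] with p hp
      exact kk_int hp) (fun x => σ x - τ x) (hσ.1.sub hτ.1) (by
      rw [← Measure.volume_eq_prod]
      exact hint)
  rw [← Measure.volume_eq_prod] at hpos
  have hval : ∫ p : R3 × R3, (σ p.1 - τ p.1) * (σ p.2 - τ p.2) * ‖p.1 - p.2‖⁻¹ =
      (dd σ σ - dd σ τ) - (dd τ σ - dd τ τ) := by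
    rw [hI]
    unfold dd
    have e1 := integral_sub (i1.sub i2) (i3.sub i4)
    have e2 := integral_sub i1 i2
    have e3 := integral_sub i3 i4
    simp only [Pi.sub_apply] at e1
    rw [e1, e2, e3]
  have hpos' : 0 ≤ ∫ p : R3 × R3, (σ p.1 - τ p.1) * (σ p.2 - τ p.2) * ‖p.1 - p.2‖⁻¹ := hpos
  rw [hval, hsym] at hpos'
  linarith

end H43.TT
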